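import Mathlib

/-!
There are an ordinal `lam > ω₁` and an infinite compactum cleavable over `lam` that does not embed
into `lam`.
-/

namespace Pool.Agent.Results.MP_23516e_gt.CleavableNotEmbeddable

open Set Ordinal Topology Filter Order

/-- `X` is cleavable over `Y`: for every `A ⊆ X` there is a continuous `f : X → Y` with
`f⁻¹(f(A)) = A`. -/
def Cleavable (X : Type*) (Y : Type*) [TopologicalSpace X] [TopologicalSpace Y] : Prop :=
  ∀ A : Set X, ∃ f : X → Y, Continuous f ∧ f ⁻¹' (f '' A) = A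

/-! ### Ordinals -/

lemma countable_Iio_of_lt {r : Ordinal.{0}} (h : r < ω₁) : (Set.Iio r).Countable := by
  rw [← Set.countable_coe_iff, ← Cardinal.mk_le_aleph0_iff, Cardinal.mk_Iio_ordinal,
    Cardinal.lift_le_aleph0]
  have h1 : r.card < Cardinal.aleph 1 := by
    rw [← Cardinal.lt_ord, Cardinal.ord_aleph]
    exact h
  rw [← Cardinal.succ_aleph0] at h1
  exact Order.lt_succ_iff.1 h1

lemma enum_Iio {r : Ordinal.{0}} (h : r < ω₁) (hr : r ≠ 0) :
    ∃ s : ℕ → Ordinal.{0}, (∀ n, s n < r) ∧ ∀ d < r, ∃ n, s n = d := by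
  obtain ⟨s, hs⟩ := (countable_Iio_of_lt h).exists_eq_range ⟨0, pos_iff_ne_zero.2 hr⟩
  refine ⟨s, fun n => ?_, fun d hd => ?_⟩
  · have : s n ∈ Set.Iio r := by rw [hs]; exact ⟨n, rfl⟩
    exact this
  · have : d ∈ Set.range s := by rw [← hs]; exact hd
    exact this

lemma omega_two_lt : ω * 2 < (ω₁ : Ordinal.{0}) := by
  rw [← (isInitial_omega 1).card_lt_card]
  simp

lemma pos1 : (0 : Ordinal.{0}) < ω₁ := omega_pos 1

/-- The maximal element of `[0, ω₁]`. -/
noncomputable abbrev topPt : Set.Iic (ω₁ : Ordinal.{0}) := ⟨ω₁, Set.mem_Iic.2 le_rfl⟩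

/-- A neighbourhood of `ω₁` in `[0, ω₁]` contains a tail. -/
lemma nhds_topPt {V : Set (Set.Iic (ω₁ : Ordinal.{0}))} (hV : V ∈ 𝓝 topPt) :
    ∃ b : Ordinal.{0}, b < ω₁ ∧ ∀ p : Set.Iic (ω₁ : Ordinal.{0}), b < p.1 → p ∈ V := by
  obtain ⟨N, hN, hNV⟩ := mem_nhds_subtype _ _ _ |>.1 hV
  obtain ⟨l, hl, hl'⟩ := exists_Ioc_subset_of_mem_nhds hN ⟨0, omega_pos 1⟩
  exact ⟨l, hl, fun p hp => hNV (hl' ⟨hp, p.2⟩)⟩

/-- Countably many neighbourhoods of `ω₁` in `[0, ω₁]` have a common point different from `ω₁`. -/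
lemma exists_common {V : ℕ → Set (Set.Iic (ω₁ : Ordinal.{0}))} (hV : ∀ n, V n ∈ 𝓝 topPt) :
    ∃ p, p ≠ topPt ∧ ∀ n, p ∈ V n := by
  choose b hb hbV using fun n => nhds_topPt (hV n)
  have h2 : (⨆ n, b n) < ω₁ := Ordinal.iSup_lt_omega_one hb
  have h3 : Order.succ (⨆ n, b n) < ω₁ := (Cardinal.isSuccLimit_omega 1).succ_lt h2
  refine ⟨⟨Order.succ (⨆ n, b n), h3.le⟩, ?_, ?_⟩
  · intro h
    have := congrArg Subtype.val h
    exact h3.ne this
  · intro n
    refine hbV n _ ?_
    exact lt_of_le_of_lt (Ordinal.le_iSup b n) (Order.lt_succ _)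

/-- The image of `ω₁` under a continuous injection of `[0, ω₁]` into the ordinals, if it is not
too large, is a successor multiple of `ω₁`. -/
lemma image_top {e : Set.Iic (ω₁ : Ordinal.{0}) → Ordinal.{0}} (he : Continuous e)
    (hinj : Function.Injective e) (hle : e topPt ≤ ω₁ * (ω * 2)) :
    ∃ ζ, e topPt = ω₁ * (ζ + 1) := by
  have hne : ∀ p, p ≠ topPt → e p ≠ e topPt := fun p hp h => hp (hinj h)
  -- the image is a limit ordinal
  have hlim : IsSuccLimit (e topPt) := by
    by_contra hcon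
    have h1 : IsOpen ({e topPt} : Set Ordinal.{0}) := SuccOrder.isOpen_singleton_iff.2 hcon
    obtain ⟨p, hp, hpV⟩ := exists_common (V := fun _ => e ⁻¹' {e topPt})
      fun _ => (h1.preimage he).mem_nhds rfl
    exact hne p hp (hpV 0)
  -- no countable set is cofinal below the image
  have hcof : ∀ s : ℕ → Ordinal.{0}, (∀ n, s n < e topPt) → ∃ t < e topPt, ∀ n, s n < t := by
    intro s hs
    obtain ⟨p, hp, hpV⟩ := exists_common (V := fun n => e ⁻¹' (Set.Ioo (s n) (succ (e topPt))))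
      fun n => (isOpen_Ioo.preimage he).mem_nhds ⟨hs n, lt_succ _⟩
    refine ⟨e p, lt_of_le_of_ne (lt_succ_iff.1 (hpV 0).2) (hne p hp), fun n => (hpV n).1⟩
  have h1 : ω₁ * (e topPt / ω₁) + e topPt % ω₁ = e topPt := div_add_mod _ _
  have h2 : e topPt % ω₁ < ω₁ := mod_lt _ pos1.ne'
  generalize e topPt / ω₁ = q at h1
  generalize e topPt % ω₁ = r at h1 h2
  by_cases hr : r = 0
  · rw [hr, add_zero] at h1
    by_cases hq : IsSuccLimit q
    · exfalso
      have hq2 : q ≤ ω * 2 := by
        rw [← h1] at hle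
        exact (mul_le_mul_iff_right₀ pos1).1 hle
      have hq1 : q < ω₁ := hq2.trans_lt omega_two_lt
      obtain ⟨s, hs, hs'⟩ := enum_Iio hq1 hq.ne_bot
      obtain ⟨t, ht, hst⟩ := hcof (fun n => ω₁ * s n) (fun n => by
        rw [← h1]
        exact (mul_lt_mul_iff_right₀ pos1).2 (hs n))
      rw [← h1, lt_mul_iff_of_isSuccLimit hq] at ht
      obtain ⟨d, hd, htd⟩ := ht
      obtain ⟨n, rfl⟩ := hs' d hd
      exact absurd htd (hst n).le.not_gt
    · rcases Ordinal.zero_or_succ_or_isSuccLimit q with h | ⟨ζ, hζ⟩ | h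
      · rw [h, mul_zero] at h1
        exact absurd h1.symm hlim.ne_bot
      · exact ⟨ζ, by rw [← h1, ← hζ]; rfl⟩
      · exact absurd h hq
  · exfalso
    obtain ⟨s, hs, hs'⟩ := enum_Iio h2 hr
    obtain ⟨t, ht, hst⟩ := hcof (fun n => ω₁ * q + s n) (fun n => by
      rw [← h1]
      exact (add_lt_add_iff_left _).2 (hs n))
    rw [← h1, lt_add_iff hr] at ht
    obtain ⟨d, hd, htd⟩ := ht
    obtain ⟨n, rfl⟩ := hs' d hd
    exact absurd htd (hst n).not_ge

/-! ### The building block: the one-point compactification of `ℕ × [0, ω₁]` -/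

/-- The one-point compactification of countably many copies of `[0, ω₁]`. -/
abbrev Blk : Type 1 := OnePoint (ℕ × Set.Iic (ω₁ : Ordinal.{0}))

instance : CompactSpace (Set.Iic (ω₁ : Ordinal.{0})) := by
  rw [← isCompact_iff_compactSpace, ← Set.Icc_bot]
  exact isCompact_Icc

lemma tail_mem (k₀ : ℕ) : {x : ℕ × Set.Iic (ω₁ : Ordinal.{0}) | k₀ ≤ x.1} ∈
    coclosedCompact (ℕ × Set.Iic (ω₁ : Ordinal.{0})) := by
  rw [mem_coclosedCompact_iff]
  have h1 : {x : ℕ × Set.Iic (ω₁ : Ordinal.{0}) | k₀ ≤ x.1}ᶜ = Set.Iio k₀ ×ˢ Set.univ := by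
    ext x
    simp
  rw [h1]
  have h2 : IsCompact (Set.Iio k₀ ×ˢ (Set.univ : Set (Set.Iic (ω₁ : Ordinal.{0})))) :=
    (Set.finite_Iio k₀).isCompact.prod isCompact_univ
  rw [h2.isClosed.closure_eq]
  exact h2

lemma eventually_tail {s : Set (ℕ × Set.Iic (ω₁ : Ordinal.{0}))}
    (hs : s ∈ coclosedCompact (ℕ × Set.Iic (ω₁ : Ordinal.{0}))) :
    ∃ k₀ : ℕ, ∀ x : ℕ × Set.Iic (ω₁ : Ordinal.{0}), k₀ ≤ x.1 → x ∈ s := by
  rw [mem_coclosedCompact_iff] at hs
  have h1 : (Prod.fst '' closure sᶜ).Finite := (hs.image continuous_fst).finite_of_discrete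
  obtain ⟨b, hb⟩ := h1.bddAbove
  refine ⟨b + 1, fun x hx => ?_⟩
  by_contra hcon
  have := hb ⟨x, subset_closure hcon, rfl⟩
  omega

lemma tendsto_top_infty :
    Tendsto (fun k : ℕ => (((k, topPt) : ℕ × Set.Iic (ω₁ : Ordinal.{0})) : Blk)) atTop
      (𝓝 OnePoint.infty) := by
  refine OnePoint.tendsto_coe_infty.comp ?_
  intro s hs
  obtain ⟨k₀, hk₀⟩ := eventually_tail hs
  exact mem_atTop_sets.2 ⟨k₀, fun k hk => hk₀ (k, topPt) hk⟩

/-- The image of the point at infinity of the block. -/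
lemma image_infty {g : Blk → Ordinal.{0}} (hg : Continuous g) (hinj : Function.Injective g)
    (hle : ∀ x, g x ≤ ω₁ * (ω * 2)) :
    g OnePoint.infty = ω₁ * ω ∨ g OnePoint.infty = ω₁ * (ω * 2) := by
  have hk : ∀ k : ℕ, ∃ ζ, g (((k, topPt) : ℕ × Set.Iic (ω₁ : Ordinal.{0})) : Blk) =
      ω₁ * (ζ + 1) := by
    intro k
    refine image_top (e := fun p => g (((k, p) : ℕ × Set.Iic (ω₁ : Ordinal.{0})) : Blk)) ?_ ?_
      (hle _)
    · exact hg.comp (OnePoint.continuous_coe.comp (by fun_prop))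
    · intro p q hpq
      have := OnePoint.coe_injective (hinj hpq)
      exact (Prod.mk.inj this).2
  choose ζ hζ using hk
  have htend : Tendsto (fun k => ω₁ * (ζ k + 1)) atTop (𝓝 (g OnePoint.infty)) := by
    have := (hg.tendsto OnePoint.infty).comp tendsto_top_infty
    refine this.congr fun k => ?_
    exact hζ k
  have hne : ∀ k, ω₁ * (ζ k + 1) ≠ g OnePoint.infty := by
    intro k h
    rw [← hζ k] at h
    exact OnePoint.coe_ne_infty _ (hinj h)
  have h1 : ω₁ * (g OnePoint.infty / ω₁) + g OnePoint.infty % ω₁ = g OnePoint.infty :=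
    div_add_mod _ _
  have h2 : g OnePoint.infty % ω₁ < ω₁ := mod_lt _ pos1.ne'
  have hle' := hle OnePoint.infty
  generalize g OnePoint.infty = μ at *
  generalize μ / ω₁ = q at h1
  generalize μ % ω₁ = r at h1 h2
  -- the neighbourhood `(β, μ]` of `μ`
  have hnhds : ∀ β < μ, ∃ k, β < ω₁ * (ζ k + 1) ∧ ω₁ * (ζ k + 1) < μ := by
    intro β hβ
    have h3 : Set.Ioo β (succ μ) ∈ 𝓝 μ := isOpen_Ioo.mem_nhds ⟨hβ, lt_succ _⟩
    obtain ⟨k, hk⟩ := (htend.eventually h3).exists
    exact ⟨k, hk.1, lt_of_le_of_ne (lt_succ_iff.1 hk.2) (hne k)⟩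
  by_cases hr : r = 0
  · rw [hr, add_zero] at h1
    rcases Ordinal.zero_or_succ_or_isSuccLimit q with h | ⟨p, hp⟩ | h
    · exfalso
      rw [h, mul_zero] at h1
      have h3 : IsOpen ({0} : Set Ordinal.{0}) :=
        SuccOrder.isOpen_singleton_iff.2 (Order.not_isSuccLimit_bot)
      have h4 : ({0} : Set Ordinal.{0}) ∈ 𝓝 μ := h3.mem_nhds h1.symm
      obtain ⟨k, hk⟩ := (htend.eventually h4).exists
      exact hne k (hk.trans h1)
    · exfalso
      have hp' : q = p + 1 := hp.symm
      obtain ⟨k, hk1, hk2⟩ := hnhds (ω₁ * p) (by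
        rw [← h1, hp']
        exact (mul_lt_mul_iff_right₀ pos1).2 (lt_add_one p))
      rw [← h1, hp'] at hk2
      have h3 := (mul_lt_mul_iff_right₀ pos1).1 hk1
      have h4 := (mul_lt_mul_iff_right₀ pos1).1 hk2
      have h5 : ζ k < p := Order.succ_lt_succ_iff.1 h4
      have h6 : p ≤ ζ k := lt_succ_iff.1 h3
      exact absurd h5 h6.not_gt
    · obtain ⟨h3, a, ha⟩ := (⟨h.ne_bot, isSuccPrelimit_iff_omega0_dvd.1 h.isSuccPrelimit⟩ : q ≠ 0 ∧ ω ∣ q)
      rw [← h1] at hle'
      have h4 : ω * a ≤ ω * 2 := by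
        rw [← ha]
        exact (mul_le_mul_iff_right₀ pos1).1 hle'
      have h5 : a ≤ 2 := (mul_le_mul_iff_right₀ omega0_pos).1 h4
      have h6 : a = 0 ∨ a = 1 ∨ a = 2 := by
        have h7 : a < ((3 : ℕ) : Ordinal.{0}) := by
          refine lt_of_le_of_lt h5 ?_
          have : ((2 : ℕ) : Ordinal.{0}) < ((3 : ℕ) : Ordinal.{0}) := by
            exact_mod_cast (by norm_num : (2 : ℕ) < 3)
          exact this
        obtain ⟨n, rfl⟩ := lt_omega0.1 (h7.trans (natCast_lt_omega0 3))
        have h8 : n < 3 := by exact_mod_cast h7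
        interval_cases n <;> simp
      rcases h6 with rfl | rfl | rfl
      · rw [mul_zero] at ha
        exact absurd ha h3
      · left
        rw [← h1, ha, mul_one]
      · right
        rw [← h1, ha]
  · exfalso
    obtain ⟨k, hk1, hk2⟩ := hnhds (ω₁ * q) (by
      rw [← h1]
      exact lt_add_of_pos_right _ (pos_iff_ne_zero.2 hr))
    have h3 : μ < ω₁ * (q + 1) := by
      rw [← h1, mul_add_one]
      exact (add_lt_add_iff_left _).2 h2
    have h4 := (mul_lt_mul_iff_right₀ pos1).1 hk1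
    have h5 := (mul_lt_mul_iff_right₀ pos1).1 (hk2.trans h3)
    have h6 : ζ k < q := Order.succ_lt_succ_iff.1 h5
    have h7 : q ≤ ζ k := lt_succ_iff.1 h4
    exact absurd h6 h7.not_gt

/-! ### Two blocks embed into `ω₁ * ω * 2 + 1` -/

/-- The map of two blocks onto `(0, ω₁ * (ω * 2)]`. -/
noncomputable def psi (i : Fin 2) : Blk → Ordinal.{0}
  | none => ω₁ * (ω * ((i : ℕ) + 1))
  | some (k, ξ) => ω₁ * (ω * (i : ℕ) + k) + (1 + ξ.1)

lemma psi_infty (i : Fin 2) : psi i OnePoint.infty = ω₁ * (ω * ((i : ℕ) + 1)) := rfl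

lemma psi_coe (i : Fin 2) (x : ℕ × Set.Iic (ω₁ : Ordinal.{0})) :
    psi i (x : Blk) = ω₁ * (ω * (i : ℕ) + x.1) + (1 + x.2.1) := rfl

lemma one_add_le {ξ : Ordinal.{0}} (h : ξ ≤ ω₁) : 1 + ξ ≤ ω₁ := by
  calc 1 + ξ ≤ 1 + ω₁ := by gcongr
    _ = ω₁ := by
      exact one_add_of_omega0_le (omega0_le_omega 1)

lemma psi_lower (i : Fin 2) (x : ℕ × Set.Iic (ω₁ : Ordinal.{0})) :
    ω₁ * (ω * (i : ℕ) + x.1) < psi i (x : Blk) := by
  rw [psi_coe]
  exact lt_add_of_pos_right _ (lt_of_lt_of_le zero_lt_one le_self_add)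

lemma psi_upper (i : Fin 2) (x : ℕ × Set.Iic (ω₁ : Ordinal.{0})) :
    psi i (x : Blk) ≤ ω₁ * (ω * (i : ℕ) + x.1 + 1) := by
  rw [psi_coe, mul_add_one]
  gcongr
  exact one_add_le x.2.2

lemma idx_lt (i : Fin 2) (k : ℕ) : ω * ((i : ℕ) : Ordinal.{0}) + k + 1 < ω * ((i : ℕ) + 1) := by
  rw [mul_add_one, add_assoc]
  refine (add_lt_add_iff_left _).2 ?_
  exact_mod_cast natCast_lt_omega0 (k + 1)

lemma psi_lt_infty (i : Fin 2) (x : ℕ × Set.Iic (ω₁ : Ordinal.{0})) :
    psi i (x : Blk) < psi i OnePoint.infty := by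
  refine (psi_upper i x).trans_lt ?_
  rw [psi_infty]
  exact (mul_lt_mul_iff_right₀ pos1).2 (idx_lt i x.1)

lemma psi_le (i : Fin 2) (x : Blk) : psi i x ≤ ω₁ * (ω * 2) := by
  have h1 : psi i OnePoint.infty ≤ ω₁ * (ω * 2) := by
    rw [psi_infty]
    gcongr
    have : ((i : ℕ) : Ordinal.{0}) ≤ ((1 : ℕ) : Ordinal.{0}) := by
      exact_mod_cast (by omega : (i : ℕ) ≤ 1)
    calc ((i : ℕ) : Ordinal.{0}) + 1 ≤ ((1 : ℕ) : Ordinal.{0}) + 1 := by gcongr
      _ = 2 := by norm_num
  induction x using OnePoint.rec with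
  | infty => exact h1
  | coe x => exact (psi_lt_infty i x).le.trans h1

lemma continuous_psi (i : Fin 2) : Continuous (psi i) := by
  rw [continuous_iff_continuousAt]
  intro x
  induction x using OnePoint.rec with
  | infty =>
    rw [OnePoint.continuousAt_infty']
    refine tendsto_order.2 ⟨fun β hβ => ?_, fun β hβ => ?_⟩
    · rw [psi_infty] at hβ
      have hlim : IsSuccLimit (ω * (((i : ℕ) : Ordinal.{0}) + 1)) := by
        rw [mul_add_one]
        exact isSuccLimit_add _ isSuccLimit_omega0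
      obtain ⟨q, hq, hβq⟩ := (lt_mul_iff_of_isSuccLimit hlim).1 hβ
      rw [mul_add_one, lt_add_iff_of_isSuccLimit isSuccLimit_omega0] at hq
      obtain ⟨d, hd, hqd⟩ := hq
      obtain ⟨k₀, rfl⟩ := lt_omega0.1 hd
      filter_upwards [tail_mem k₀] with y hy
      have h3 : ((k₀ : ℕ) : Ordinal.{0}) ≤ (y.1 : Ordinal.{0}) := by exact_mod_cast hy
      calc β < ω₁ * q := hβq
        _ ≤ ω₁ * (ω * (i : ℕ) + k₀) := by gcongr
        _ ≤ ω₁ * (ω * (i : ℕ) + y.1) := by gcongr
        _ < psi i (y : Blk) := psi_lower i y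
    · filter_upwards with y
      exact (psi_lt_infty i y).trans hβ
  | coe x =>
    rw [OnePoint.continuousAt_coe]
    have h1 : Continuous fun y : ℕ × Set.Iic (ω₁ : Ordinal.{0}) =>
        ω₁ * (ω * (i : ℕ) + y.1) + (1 + y.2.1) := by
      rw [continuous_iff_continuousAt]
      rintro ⟨k, ξ⟩
      have h2 : ContinuousAt (fun y : ℕ × Set.Iic (ω₁ : Ordinal.{0}) =>
          ω₁ * (ω * (i : ℕ) + (k : Ordinal.{0})) + (1 + y.2.1)) (k, ξ) := by
        have h3 : Continuous fun z : Ordinal.{0} => 1 + z := (isNormal_add_right 1).continuous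
        have h4 : Continuous fun z : Ordinal.{0} => ω₁ * (ω * (i : ℕ) + (k : Ordinal.{0})) + z :=
          (isNormal_add_right _).continuous
        exact (h4.comp (h3.comp (continuous_subtype_val.comp continuous_snd))).continuousAt
      refine h2.congr ?_
      have h3 : {y : ℕ × Set.Iic (ω₁ : Ordinal.{0}) | y.1 = k} ∈ 𝓝 (k, ξ) :=
        ((isOpen_discrete ({k} : Set ℕ)).preimage continuous_fst).mem_nhds rfl
      filter_upwards [h3] with y hy
      have hy' : y.1 = k := hy
      rw [hy']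
    exact h1.continuousAt

lemma idx_inj {i j : Fin 2} {k l : ℕ}
    (h : ω * ((i : ℕ) : Ordinal.{0}) + k = ω * ((j : ℕ) : Ordinal.{0}) + l) : i = j ∧ k = l := by
  have key : ∀ {i j : Fin 2} {k l : ℕ},
      ω * ((i : ℕ) : Ordinal.{0}) + k = ω * ((j : ℕ) : Ordinal.{0}) + l → ¬ i < j := by
    intro i j k l h hij
    have h1 : ((i : ℕ) : Ordinal.{0}) + 1 ≤ ((j : ℕ) : Ordinal.{0}) := by
      exact_mod_cast (by omega : (i : ℕ) + 1 ≤ (j : ℕ))
    have h2 : ω * ((i : ℕ) : Ordinal.{0}) + k < ω * ((j : ℕ) : Ordinal.{0}) + l := by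
      calc ω * ((i : ℕ) : Ordinal.{0}) + k ≤ ω * ((i : ℕ) : Ordinal.{0}) + k + 1 := le_self_add
        _ < ω * ((i : ℕ) + 1) := idx_lt i k
        _ ≤ ω * ((j : ℕ) : Ordinal.{0}) := by gcongr
        _ ≤ _ := le_self_add
    exact h2.ne h
  have hij : i = j := by
    rcases lt_trichotomy i j with h' | h' | h'
    · exact absurd h' (key h)
    · exact h'
    · exact absurd h' (key h.symm)
  subst hij
  exact ⟨rfl, by exact_mod_cast (add_left_cancel h)⟩

lemma psi_injective {i j : Fin 2} {x y : Blk} (h : psi i x = psi j y) : i = j ∧ x = y := by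
  have hinf : ∀ (i j : Fin 2) (y : ℕ × Set.Iic (ω₁ : Ordinal.{0})),
      psi i OnePoint.infty ≠ psi j (y : Blk) := by
    intro i j y h
    have h1 := psi_lower j y
    have h2 := psi_upper j y
    rw [← h, psi_infty] at h1 h2
    have h3 := (mul_lt_mul_iff_right₀ pos1).1 h1
    have h4 := (mul_le_mul_iff_right₀ pos1).1 h2
    have hlim : IsSuccLimit (ω * (((i : ℕ) : Ordinal.{0}) + 1)) := by
      rw [mul_add_one]
      exact isSuccLimit_add _ isSuccLimit_omega0
    exact absurd (hlim.succ_lt h3) (not_lt.2 h4)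
  induction x using OnePoint.rec with
  | infty =>
    induction y using OnePoint.rec with
    | infty =>
      rw [psi_infty, psi_infty] at h
      have h1 := mul_left_cancel₀ pos1.ne' h
      have h2 := mul_left_cancel₀ omega0_pos.ne' h1
      have h3 : (i : ℕ) + 1 = (j : ℕ) + 1 := by exact_mod_cast h2
      exact ⟨Fin.ext (by omega), rfl⟩
    | coe y => exact absurd h (hinf i j y)
  | coe x =>
    induction y using OnePoint.rec with
    | infty => exact absurd h.symm (hinf j i x)
    | coe y =>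
      have hidx : ω * ((i : ℕ) : Ordinal.{0}) + x.1 = ω * ((j : ℕ) : Ordinal.{0}) + y.1 := by
        have key : ∀ {i j : Fin 2} {x y : ℕ × Set.Iic (ω₁ : Ordinal.{0})},
            psi i (x : Blk) = psi j (y : Blk) →
            ¬ ω * ((i : ℕ) : Ordinal.{0}) + x.1 < ω * ((j : ℕ) : Ordinal.{0}) + y.1 := by
          intro i j x y h hlt
          have h1 : ω * ((i : ℕ) : Ordinal.{0}) + x.1 + 1 ≤ ω * ((j : ℕ) : Ordinal.{0}) + y.1 :=
            Order.succ_le_of_lt hlt
          have h2 : psi i (x : Blk) < psi j (y : Blk) := by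
            calc psi i (x : Blk) ≤ ω₁ * (ω * (i : ℕ) + x.1 + 1) := psi_upper i x
              _ ≤ ω₁ * (ω * (j : ℕ) + y.1) := by gcongr
              _ < psi j (y : Blk) := psi_lower j y
          exact h2.ne h
        exact le_antisymm (not_lt.1 (key h.symm)) (not_lt.1 (key h))
      obtain ⟨hij, hk⟩ := idx_inj hidx
      subst hij
      refine ⟨rfl, ?_⟩
      rw [psi_coe, psi_coe, hidx] at h
      have h1 := add_left_cancel (add_left_cancel h)
      have h2 : x = y := Prod.ext hk (Subtype.ext h1)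
      rw [h2]

/-! ### Merging two of three blocks -/

/-- The embedding of a block into itself using every second copy of `[0, ω₁]`. -/
noncomputable def dbl (s : ℕ) : Blk → Blk :=
  OnePoint.map fun x : ℕ × Set.Iic (ω₁ : Ordinal.{0}) => (2 * x.1 + s, x.2)

lemma continuous_dbl (s : ℕ) : Continuous (dbl s) := by
  refine OnePoint.continuous_map ?_ ?_
  · have : Continuous fun k : ℕ => 2 * k + s := continuous_of_discreteTopology
    exact (this.comp continuous_fst).prodMk continuous_snd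
  · intro t ht
    obtain ⟨k₀, hk₀⟩ := eventually_tail ht
    rw [Filter.mem_map]
    filter_upwards [tail_mem k₀] with x hx
    refine hk₀ _ ?_
    have : k₀ ≤ x.1 := hx
    show k₀ ≤ 2 * x.1 + s
    omega

lemma dbl_injective (s : ℕ) : Function.Injective (dbl s) := by
  intro x y h
  induction x using OnePoint.rec with
  | infty =>
    induction y using OnePoint.rec with
    | infty => rfl
    | coe y => exact absurd h.symm (OnePoint.coe_ne_infty _)
  | coe x =>
    induction y using OnePoint.rec with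
    | infty => exact absurd h (OnePoint.coe_ne_infty _)
    | coe y =>
      have h1 := OnePoint.coe_injective h
      have h2 := Prod.mk.inj h1
      have h3 : x.1 = y.1 := by have := h2.1; omega
      have h4 : x = y := Prod.ext h3 h2.2
      rw [h4]

lemma dbl_eq {x y : Blk} (h : dbl 0 x = dbl 1 y) : x = OnePoint.infty ∧ y = OnePoint.infty := by
  induction x using OnePoint.rec with
  | infty =>
    induction y using OnePoint.rec with
    | infty => exact ⟨rfl, rfl⟩
    | coe y => exact absurd h.symm (OnePoint.coe_ne_infty _)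
  | coe x =>
    induction y using OnePoint.rec with
    | infty => exact absurd h (OnePoint.coe_ne_infty _)
    | coe y =>
      have h1 := OnePoint.coe_injective h
      have h2 := (Prod.mk.inj h1).1
      omega

/-- **There are an ordinal `lam > ω₁` (namely `ω₁ · ω · 2 + 1`) and an infinite compact Hausdorff
space that is cleavable over `lam` but does not embed into `lam`.** -/
theorem result : ∃ (lam : Ordinal.{0}) (X : Type 1) (_ : TopologicalSpace X), ω₁ < lam ∧
    CompactSpace X ∧ T2Space X ∧ Infinite X ∧ Cleavable X (Set.Iio lam) ∧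
    ¬ ∃ e : X → Set.Iio lam, IsEmbedding e := by
  classical
  refine ⟨ω₁ * (ω * 2) + 1, Fin 3 × Blk, inferInstance, ?_, inferInstance, inferInstance,
    ?_, ?_, ?_⟩
  · have h1 : (1 : Ordinal.{0}) ≤ ω * 2 := by
      rw [Order.one_le_iff_pos]
      exact mul_pos omega0_pos (by norm_num)
    calc ω₁ = ω₁ * 1 := (mul_one _).symm
      _ ≤ ω₁ * (ω * 2) := by gcongr
      _ < _ := lt_add_one _
  · refine Infinite.of_injective (fun n : ℕ =>
      ((0 : Fin 3), (((n, topPt) : ℕ × Set.Iic (ω₁ : Ordinal.{0})) : Blk))) ?_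
    intro m n h
    have h1 := (Prod.mk.inj h).2
    have h2 := OnePoint.coe_injective h1
    exact (Prod.mk.inj h2).1
  · intro A
    -- two of the three points at infinity have the same colour
    obtain ⟨a, b, hab, hA⟩ : ∃ a b : Fin 3, a ≠ b ∧
        (((a, OnePoint.infty) : Fin 3 × Blk) ∈ A ↔ ((b, OnePoint.infty) : Fin 3 × Blk) ∈ A) := by
      by_cases h0 : ((0, OnePoint.infty) : Fin 3 × Blk) ∈ A <;>
      by_cases h1 : ((1, OnePoint.infty) : Fin 3 × Blk) ∈ A <;>
      by_cases h2 : ((2, OnePoint.infty) : Fin 3 × Blk) ∈ A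
      · exact ⟨0, 1, by decide, by simp [h0, h1]⟩
      · exact ⟨0, 1, by decide, by simp [h0, h1]⟩
      · exact ⟨0, 2, by decide, by simp [h0, h2]⟩
      · exact ⟨1, 2, by decide, by simp [h1, h2]⟩
      · exact ⟨1, 2, by decide, by simp [h1, h2]⟩
      · exact ⟨0, 2, by decide, by simp [h0, h2]⟩
      · exact ⟨0, 1, by decide, by simp [h0, h1]⟩
      · exact ⟨0, 1, by decide, by simp [h0, h1]⟩
    let F : Fin 3 → Blk → Ordinal.{0} := fun i x =>
      if i = a then psi 0 (dbl 0 x) else if i = b then psi 0 (dbl 1 x) else psi 1 x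
    have hFle : ∀ i x, F i x ≤ ω₁ * (ω * 2) := by
      intro i x
      simp only [F]
      split_ifs <;> exact psi_le _ _
    have hFc : ∀ i, Continuous (F i) := by
      intro i
      by_cases hia : i = a
      · have : F i = fun x => psi 0 (dbl 0 x) := by
          funext x; simp only [F]; rw [if_pos hia]
        rw [this]
        exact (continuous_psi 0).comp (continuous_dbl 0)
      · by_cases hib : i = b
        · have : F i = fun x => psi 0 (dbl 1 x) := by
            funext x; simp only [F]; rw [if_neg hia, if_pos hib]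
          rw [this]
          exact (continuous_psi 0).comp (continuous_dbl 1)
        · have : F i = psi 1 := by
            funext x; simp only [F]; rw [if_neg hia, if_neg hib]
          rw [this]
          exact continuous_psi 1
    let f : Fin 3 × Blk → Set.Iio (ω₁ * (ω * 2) + 1) := fun p =>
      ⟨F p.1 p.2, lt_of_le_of_lt (hFle p.1 p.2) (lt_add_one _)⟩
    have hf : Continuous f := by
      refine Continuous.subtype_mk ?_ _
      exact continuous_prod_of_discrete_left.2 hFc
    have hFinj : ∀ p p' : Fin 3 × Blk, F p.1 p.2 = F p'.1 p'.2 → (p ∈ A ↔ p' ∈ A) := by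
      rintro ⟨i, x⟩ ⟨j, y⟩ h
      simp only [F] at h
      split_ifs at h with h1 h2 h3 h4 h5 h6 h7 h8
      · have := dbl_injective 0 (psi_injective h).2
        rw [h1, h2, this]
      · obtain ⟨hx, hy⟩ := dbl_eq (psi_injective h).2
        rw [h1, h3, hx, hy]
        exact hA
      · exact absurd (psi_injective h).1 (by decide)
      · obtain ⟨hy, hx⟩ := dbl_eq (psi_injective h).2.symm
        rw [h4, h5, hx, hy]
        exact hA.symm
      · have := dbl_injective 1 (psi_injective h).2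
        rw [h4, h6, this]
      · exact absurd (psi_injective h).1 (by decide)
      · exact absurd (psi_injective h).1 (by decide)
      · exact absurd (psi_injective h).1 (by decide)
      · have hxy := (psi_injective h).2
        have hij : i = j := by
          fin_cases a <;> fin_cases b <;> fin_cases i <;> fin_cases j <;> simp_all
        rw [hij, hxy]
    refine ⟨f, hf, Set.Subset.antisymm ?_ (Set.subset_preimage_image f A)⟩
    rintro p ⟨p', hp', hpp'⟩
    exact (hFinj p' p (congrArg Subtype.val hpp')).1 hp'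
  · rintro ⟨e, he⟩
    -- each of the three points at infinity goes to one of two ordinals
    have key : ∀ i : Fin 3, (e (i, OnePoint.infty)).1 = ω₁ * ω ∨
        (e (i, OnePoint.infty)).1 = ω₁ * (ω * 2) := by
      intro i
      refine image_infty (g := fun x => (e (i, x)).1) ?_ ?_ ?_
      · exact continuous_subtype_val.comp (he.continuous.comp (by fun_prop))
      · intro x y hxy
        exact (Prod.mk.inj (he.injective (Subtype.ext hxy))).2
      · intro x
        exact Order.lt_succ_iff.1 (e (i, x)).2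
    have hinj : ∀ i j : Fin 3, (e (i, OnePoint.infty)).1 = (e (j, OnePoint.infty)).1 → i = j := by
      intro i j h
      exact (Prod.mk.inj (he.injective (Subtype.ext h))).1
    have h01 : (0 : Fin 3) ≠ 1 := by decide
    have h02 : (0 : Fin 3) ≠ 2 := by decide
    have h12 : (1 : Fin 3) ≠ 2 := by decide
    rcases key 0 with h0 | h0 <;> rcases key 1 with h1 | h1 <;> rcases key 2 with h2 | h2
    · exact h01 (hinj 0 1 (h0.trans h1.symm))
    · exact h01 (hinj 0 1 (h0.trans h1.symm))
    · exact h02 (hinj 0 2 (h0.trans h2.symm))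
    · exact h12 (hinj 1 2 (h1.trans h2.symm))
    · exact h12 (hinj 1 2 (h1.trans h2.symm))
    · exact h02 (hinj 0 2 (h0.trans h2.symm))
    · exact h01 (hinj 0 1 (h0.trans h1.symm))
    · exact h01 (hinj 0 1 (h0.trans h1.symm))

end Pool.Agent.Results.MP_23516e_gt.CleavableNotEmbeddable
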